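import Pool.Agent.H34.GU.Targets1

/-!
Board gu, row OSU: a cusp form is small where a gap is large.
-/

namespace Pool.Agent.H47.GU

open MeasureTheory Pool.Agent.H34.GM Pool.Agent.H34.GZ Pool.Agent.H34.GU

theorem vol_box (m : ℕ) : (volume : Measure (V m)) (Set.Icc (0 : V m) 1) = 1 := by
  have h1 : (Set.Icc (0 : V m) 1) =
      Set.pi Set.univ (fun _ : Fin m => Set.Icc (0 : Fin m → ℝ) 1) := by
    rw [← Set.pi_univ_Icc]
    rfl
  have h2 : (volume : Measure (Fin m → ℝ)) (Set.Icc (0 : Fin m → ℝ) 1) = 1 := by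
    rw [Real.volume_Icc_pi]
    simp
  rw [h1, volume_pi_pi]
  simp [h2]

theorem cont_mt (m : ℕ) : Continuous (fun z : V m => mt z) := continuous_id

theorem cont_det (m : ℕ) : Continuous (fun z : V m => (mt z).det) :=
  (cont_mt m).matrix_det

theorem meas_Zc (m : ℕ) (c : ℝ) : MeasurableSet (Zc m c) := by
  apply IsClosed.measurableSet
  have h1 : IsClosed {z : V m | sz (mt z) ≤ c} :=
    isClosed_le (continuous_norm (E := V m)) continuous_const
  have h2 : IsClosed {z : V m | c⁻¹ ≤ |(mt z).det|} :=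
    isClosed_le continuous_const (cont_det m).abs
  exact h1.inter h2

theorem cont_inv (m : ℕ) : ContinuousOn (fun z : V m => (mt z)⁻¹) {z | (mt z).det ≠ 0} := by
  have h1 : (fun z : V m => (mt z)⁻¹) = fun z : V m => ((mt z).det)⁻¹ • (mt z).adjugate := by
    funext z
    rw [Matrix.inv_def, Ring.inverse_eq_inv']
  have h2 : ContinuousOn (fun z : V m => ((mt z).det)⁻¹) {z | (mt z).det ≠ 0} :=
    (cont_det m).continuousOn.inv₀ (fun z hz => hz)
  have h3 : ContinuousOn (fun z : V m => (mt z).adjugate) {z | (mt z).det ≠ 0} :=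
    ((cont_mt m).matrix_adjugate).continuousOn
  rw [h1]
  exact h2.smul h3

theorem det_inv_ne {m : ℕ} (z : Mat m) (hz : z.det ≠ 0) : (z⁻¹).det ≠ 0 := by
  rw [Matrix.det_nonsing_inv, Ring.inverse_eq_inv']
  exact inv_ne_zero hz

theorem ne_ae (har : T_HAR) {m : ℕ} (h1 : 1 ≤ m) : ∀ᵐ z ∂(hm m), (mt z).det ≠ 0 := by
  have h := (har m h1).2.2.1
  rw [ae_iff]
  simpa using h

theorem meas_G (har : T_HAR) {m q : ℕ} [NeZero q] (h1 : 1 ≤ m) {T : ℕ → Finset (ZM m)}
    {F : Mat m → VN m q → ℂ} {lam : ℕ → ℂ} {mu : Fin m → ℂ} (hF : EigU m q T F lam mu)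
    (b : Mat m) (hb : b.det ≠ 0) (x : VN m q) :
    AEStronglyMeasurable (fun z : V m => F (b * (mt z)⁻¹) x) (hm m) := by
  have h2 : (hm m).restrict {z : V m | (mt z).det ≠ 0} = hm m :=
    Measure.restrict_eq_self_of_ae_mem (ne_ae har h1)
  have h3 : MeasurableSet {z : V m | (mt z).det ≠ 0} :=
    (isOpen_ne_fun (cont_det m) continuous_const).measurableSet
  have h4 : ContinuousOn (fun z : V m => F (b * (mt z)⁻¹) x) {z : V m | (mt z).det ≠ 0} := by
    have h5 : ContinuousOn (fun z : V m => b * (mt z)⁻¹) {z : V m | (mt z).det ≠ 0} :=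
      continuousOn_const.mul (cont_inv m)
    refine (hF.cont x).comp h5 ?_
    intro z hz
    show (b * (mt z)⁻¹).det ≠ 0
    rw [Matrix.det_mul]
    exact mul_ne_zero hb (det_inv_ne _ hz)
  rw [← h2]
  exact h4.aestronglyMeasurable h3

theorem intg (har : T_HAR) {m : ℕ} (h1 : 1 ≤ m) (ψ : V m → ℂ) (hψ : Continuous ψ)
    (G : V m → ℂ) (hG : AEStronglyMeasurable G (hm m)) (K M c : ℝ) (hc : 0 < c) (hK0 : 0 ≤ K)
    (hK : ∀ z, ‖ψ z‖ ≤ K) (hs : ∀ z, ψ z ≠ 0 → z ∈ Zc m c)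
    (hM : ∀ z, (mt z).det ≠ 0 → ‖G z‖ ≤ M) :
    Integrable (fun z => ψ z * G z) (hm m) := by
  have hfin : hm m (Zc m c) < ⊤ := (har m h1).2.2.2 c hc
  have h2 : Integrable (Set.indicator (Zc m c) (fun _ : V m => K * M)) (hm m) := by
    rw [integrable_indicator_iff (meas_Zc m c)]
    exact integrableOn_const hfin.ne
  refine h2.mono' (hψ.aestronglyMeasurable.mul hG) ?_
  filter_upwards [ne_ae har h1] with z hz
  by_cases h0 : ψ z = 0
  · rw [h0, zero_mul, norm_zero]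
    apply Set.indicator_nonneg
    intro w hw
    exact mul_nonneg hK0 ((norm_nonneg _).trans (hM z hz))
  · rw [Set.indicator_of_mem (hs z h0), norm_mul]
    exact mul_le_mul (hK z) (hM z hz) (norm_nonneg _) hK0

theorem det_ne_of_Zc {m : ℕ} {c : ℝ} (hc : 0 < c) {z : V m} (hz : z ∈ Zc m c) :
    (mt z).det ≠ 0 := by
  intro h
  have h2 := hz.2
  rw [h, abs_zero] at h2
  exact absurd h2 (not_le.2 (inv_pos.2 hc))

theorem det_Sgl {m : ℕ} {b n : Mat m} {a : Fin m → ℝ} {k : Mat m} (h : Sgl b n a k) :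
    b.det ≠ 0 := by
  have h1 : n.det = 1 := by
    rw [Matrix.det_of_isLowerTriangular n (fun i j hij => h.up i j hij)]
    exact Finset.prod_eq_one (fun i _ => h.one i)
  have h2 : k.det ≠ 0 := by
    intro h0
    have h3 := congrArg Matrix.det h.orth
    rw [Matrix.det_mul, h0, zero_mul, Matrix.det_one] at h3
    exact zero_ne_one h3
  rw [h.eq, Matrix.det_mul, Matrix.det_mul, h1, Matrix.det_diagonal, one_mul]
  exact mul_ne_zero (Finset.prod_pos (fun i _ => h.pos i)).ne' h2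

/-- the form at a translate of the base point -/
theorem transl (hac : T_HAC) {m q : ℕ} [NeZero q] (h1 : 1 ≤ m) {T : ℕ → Finset (ZM m)}
    {F : Mat m → VN m q → ℂ} {lam : ℕ → ℂ} {mu : Fin m → ℂ} (hF : EigU m q T F lam mu)
    {φ : Mat m → ℂ} (hφ : Tst m φ) (b : Mat m) (hb : b.det ≠ 0) (x : VN m q) (c : Mat m)
    (hc : c.det = 1) :
    F (b * c) x * ∫ z, φ (mt z) * pw mu (mt z) ∂(hm m) =
      ∫ z, φ (mt z * c) * F (b * (mt z)⁻¹) x ∂(hm m) := by
  have hbc : (b * c).det ≠ 0 := by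
    rw [Matrix.det_mul, hc, mul_one]
    exact hb
  have hu : IsUnit c.det := by
    rw [hc]
    exact isUnit_one
  have hc0 : c.det ≠ 0 := by
    rw [hc]
    exact one_ne_zero
  rw [← hF.arch φ hφ (b * c) x hbc]
  have h2 := ((hac m h1).1 c hc0 (fun z : V m => φ (mt z) * F (b * c * (mt z)⁻¹) x)).2
  rw [← h2]
  apply integral_congr_ae
  filter_upwards with z
  have h3 : mt (fun i j => (mt z * c) i j) = mt z * c := rfl
  rw [h3, Matrix.mul_inv_rev, ← Matrix.mul_assoc, Matrix.mul_assoc b c, Matrix.mul_nonsing_inv c hu,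
    Matrix.mul_one]

/-- the difference of two values -/
theorem diff_le (hac : T_HAC) (har : T_HAR) {m q : ℕ} [NeZero q] (h1 : 1 ≤ m)
    {T : ℕ → Finset (ZM m)} {F : Mat m → VN m q → ℂ} {lam : ℕ → ℂ} {mu : Fin m → ℂ}
    (hF : EigU m q T F lam mu) {φ : Mat m → ℂ} (hφ : Tst m φ) (hφ1 : ∀ z, ‖φ z‖ ≤ 1)
    (b : Mat m) (hb : b.det ≠ 0) (x : VN m q) (c : Mat m) (hc : c.det = 1) (C A : ℝ)
    (hC : 0 < C) (hA : 0 ≤ A)
    (hd : ∀ z : Mat m, ‖φ z - φ (z * c)‖ ≤ A)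
    (hs : ∀ z : Mat m, φ z ≠ 0 ∨ φ (z * c) ≠ 0 → sz z ≤ C ∧ C⁻¹ ≤ |z.det|) :
    ‖F b x * (∫ z, φ (mt z) * pw mu (mt z) ∂(hm m)) -
      F (b * c) x * ∫ z, φ (mt z) * pw mu (mt z) ∂(hm m)‖ ≤
      A * (∫⁻ z in Zc m C, ENNReal.ofReal ‖F (b * (mt z)⁻¹) x‖ ∂(hm m)).toReal := by
  obtain ⟨M, hM⟩ := hF.bdd
  have hM' : ∀ z : V m, (mt z).det ≠ 0 → ‖F (b * (mt z)⁻¹) x‖ ≤ M := by
    intro z hz
    apply hM
    rw [Matrix.det_mul]
    exact mul_ne_zero hb (det_inv_ne _ hz)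
  have hG := meas_G har h1 hF b hb x
  have hφc : Continuous (fun z : V m => φ (mt z)) := hφ.cont.comp (cont_mt m)
  have hφc2 : Continuous (fun z : V m => φ (mt z * c)) :=
    hφ.cont.comp ((cont_mt m).mul continuous_const)
  have i1 : Integrable (fun z : V m => φ (mt z) * F (b * (mt z)⁻¹) x) (hm m) :=
    intg har h1 _ hφc _ hG 1 M C hC zero_le_one (fun z => hφ1 _)
      (fun z hz => hs _ (Or.inl hz)) hM'
  have i2 : Integrable (fun z : V m => φ (mt z * c) * F (b * (mt z)⁻¹) x) (hm m) :=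
    intg har h1 _ hφc2 _ hG 1 M C hC zero_le_one (fun z => hφ1 _)
      (fun z hz => hs _ (Or.inr hz)) hM'
  rw [transl hac h1 hF hφ b hb x c hc, ← hF.arch φ hφ b x hb, ← integral_sub i1 i2]
  refine (norm_integral_le_lintegral_norm _).trans ?_
  have hfin : hm m (Zc m C) < ⊤ := (har m h1).2.2.2 C hC
  have hI : ∫⁻ z in Zc m C, ENNReal.ofReal ‖F (b * (mt z)⁻¹) x‖ ∂(hm m) < ⊤ := by
    calc ∫⁻ z in Zc m C, ENNReal.ofReal ‖F (b * (mt z)⁻¹) x‖ ∂(hm m)
        ≤ ∫⁻ z in Zc m C, ENNReal.ofReal M ∂(hm m) :=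
          setLIntegral_mono' (meas_Zc m C)
            (fun z hz => ENNReal.ofReal_le_ofReal (hM' z (det_ne_of_Zc hC hz)))
      _ = ENNReal.ofReal M * hm m (Zc m C) := setLIntegral_const _ _
      _ < ⊤ := ENNReal.mul_lt_top ENNReal.ofReal_lt_top hfin
  have hle : ∫⁻ z, ENNReal.ofReal ‖φ (mt z) * F (b * (mt z)⁻¹) x -
      φ (mt z * c) * F (b * (mt z)⁻¹) x‖ ∂(hm m) ≤
      ENNReal.ofReal A * ∫⁻ z in Zc m C, ENNReal.ofReal ‖F (b * (mt z)⁻¹) x‖ ∂(hm m) := by
    rw [← lintegral_const_mul' _ _ ENNReal.ofReal_ne_top, ← lintegral_indicator (meas_Zc m C)]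
    apply lintegral_mono
    intro z
    by_cases hz : z ∈ Zc m C
    · rw [Set.indicator_of_mem hz]
      show ENNReal.ofReal _ ≤ _
      rw [← ENNReal.ofReal_mul hA, ← sub_mul, norm_mul]
      exact ENNReal.ofReal_le_ofReal (mul_le_mul_of_nonneg_right (hd _) (norm_nonneg _))
    · rw [Set.indicator_of_notMem hz]
      have h2 : φ (mt z) = 0 := by
        by_contra h0
        exact hz (hs _ (Or.inl h0))
      have h3 : φ (mt z * c) = 0 := by
        by_contra h0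
        exact hz (hs _ (Or.inr h0))
      show ENNReal.ofReal _ ≤ _
      rw [h2, h3, zero_mul, sub_zero, norm_zero, ENNReal.ofReal_zero]
  have h5 := ENNReal.toReal_mono (ENNReal.mul_lt_top ENNReal.ofReal_lt_top hI).ne hle
  rw [ENNReal.toReal_mul, ENNReal.toReal_ofReal hA] at h5
  exact h5

theorem nk_cont (m k : ℕ) : Continuous (fun u : V m => nk k u) := by
  apply continuous_matrix
  intro i j
  by_cases h : (j : ℕ) < k ∧ k ≤ (i : ℕ)
  · have : (fun u : V m => nk k u i j) = fun u : V m => u i j := by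
      funext u
      simp [nk, h]
    rw [this]
    fun_prop
  · have : (fun u : V m => nk k u i j) = fun _ => 0 := by
      funext u
      simp [nk, h]
    rw [this]
    exact continuous_const

theorem pf_OSU (hzl : T_ZLB) (hac : T_HAC) (har : T_HAR) (hbm : T_BMP) :
    T_CUB → T_LPB → T_OSU := by
  intro hcub hlpb m χ h1 hχ
  obtain ⟨c0, c1, hc0, hc1, hZ⟩ := hzl m χ h1 hχ
  obtain ⟨Bu, hBu, hU⟩ := hcub m
  obtain ⟨CL, hCL, hL⟩ := hlpb m χ Bu h1 hχ hBu
  have hm0 : (0 : ℝ) < m := by exact_mod_cast h1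
  have hm1 : (1 : ℝ) ≤ m := by exact_mod_cast h1
  have hCL0 : 0 < CL := lt_of_lt_of_le one_pos hCL
  refine ⟨c0 / m, max CL (CL / c1), m ^ 2 + 1, div_pos hc0 hm0, le_max_of_le_left hCL, ?_⟩
  intro q _ T F lam mu hq hF δ hδ hδ2 hδc b n a k hS i j hij hqa x
  have hE : EigU m q T F lam mu := hF.toEigU
  have hb : b.det ≠ 0 := det_Sgl hS
  set φ : Mat m → ℂ := bump m χ δ with hφdef
  obtain ⟨hT, -, -, hφ1, -⟩ := (hbm m χ h1 hχ).1 δ hδ hδ2
  set P : ℂ := ∫ z, φ (mt z) * pw mu (mt z) ∂(hm m) with hP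
  -- lower bound for `P`
  have hPlow : c1 * δ ^ (m ^ 2) ≤ ‖P‖ := by
    have h2 := hZ mu (-(((m : ℂ) - 1) / 2)) δ hδ hδ2 (by
      have h3 : ‖-(((m : ℂ) - 1) / 2)‖ = ((m : ℝ) - 1) / 2 := by
        have h4 : -(((m : ℂ) - 1) / 2) = ((-(((m : ℝ) - 1) / 2) : ℝ) : ℂ) := by
          push_cast
          ring
        rw [h4, Complex.norm_real, norm_neg, Real.norm_eq_abs, abs_of_nonneg]
        linarith
      rw [h3]
      have h5 : 0 ≤ ∑ j, ‖mu j‖ := Finset.sum_nonneg (fun _ _ => norm_nonneg _)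
      have h6 : 1 + ((m : ℝ) - 1) / 2 + ∑ j, ‖mu j‖ ≤ m * (1 + ∑ j, ‖mu j‖) := by nlinarith
      calc δ * (1 + ((m : ℝ) - 1) / 2 + ∑ j, ‖mu j‖) ≤ δ * (m * (1 + ∑ j, ‖mu j‖)) :=
            mul_le_mul_of_nonneg_left h6 hδ.le
        _ = m * (δ * (1 + ∑ j, ‖mu j‖)) := by ring
        _ ≤ m * (c0 / m) := mul_le_mul_of_nonneg_left hδc hm0.le
        _ = c0 := by field_simp)
    have h3 : Zf (bump m χ δ) mu (-(((m : ℂ) - 1) / 2)) = P := by
      rw [hP]
      unfold Zf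
      apply integral_congr_ae
      filter_upwards with z
      rw [neg_add_cancel, Complex.cpow_zero, mul_one]
    rw [h3] at h2
    exact h2
  -- the gap
  have haj : 0 < a j := hS.pos j
  have hai : 0 < a i := hS.pos i
  have hq0 : (0 : ℝ) < q := by
    have : 0 < q := by omega
    exact_mod_cast this
  set τ : ℝ := q * a i / a j with hτ
  have hτ0 : 0 ≤ τ := by positivity
  have hτ1 : τ ≤ 1 := by
    rw [hτ, div_le_one haj]
    exact hqa
  have hA0 : 0 ≤ CL * δ⁻¹ * τ := by positivity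
  set I : ENNReal := ∫⁻ z in Zc m CL, ENNReal.ofReal ‖F (b * (mt z)⁻¹) x‖ ∂(hm m) with hI
  -- one translate
  have hdiff : ∀ u ∈ Set.Icc (0 : V m) 1,
      ‖F b x * P - F ((1 + (q : ℝ) • nk j u) * b) x * P‖ ≤ CL * δ⁻¹ * τ * I.toReal := by
    intro u hu
    obtain ⟨e1, e2, e3⟩ := hU q b n a k hS i j hij u hu
    rw [e1]
    have hl := fun z : Mat m => hL δ hδ hδ2 z (b⁻¹ * (1 + (q : ℝ) • nk j u) * b) τ e2 hτ0 hτ1 e3
    exact diff_le hac har h1 hE hT hφ1 b hb x _ e2 CL (CL * δ⁻¹ * τ) hCL0 hA0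
      (fun z => (hl z).1) (fun z hz => (hl z).2 hz)
  -- average over the unipotent group
  have hdetu : ∀ u : V m, (1 + (q : ℝ) • nk (m := m) j u).det = 1 := by
    intro u
    have hlow : ∀ s t : Fin m, s < t → (1 + (q : ℝ) • nk (m := m) j u) s t = 0 := by
      intro s t hst
      have h2 : ¬ ((t : ℕ) < (j : ℕ) ∧ (j : ℕ) ≤ (s : ℕ)) := by
        intro h3
        have h4 : (s : ℕ) < (t : ℕ) := hst
        omega
      have h3 : nk (m := m) (j : ℕ) u s t = 0 := if_neg h2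
      show (1 : Mat m) s t + (q : ℝ) * nk (m := m) (j : ℕ) u s t = 0
      rw [h3, Matrix.one_apply_ne hst.ne, mul_zero, add_zero]
    rw [Matrix.det_of_isLowerTriangular _ (fun s t hst => hlow s t hst)]
    apply Finset.prod_eq_one
    intro s _
    have h2 : ¬ ((s : ℕ) < (j : ℕ) ∧ (j : ℕ) ≤ (s : ℕ)) := by omega
    have h3 : nk (m := m) (j : ℕ) u s s = 0 := if_neg h2
    show (1 : Mat m) s s + (q : ℝ) * nk (m := m) (j : ℕ) u s s = 1
    rw [h3, Matrix.one_apply_eq, mul_zero, add_zero]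
  have hcusp := hF.cusp (j : ℕ) (by omega) j.2 b x hb
  have hcont : ContinuousOn (fun u : V m => F ((1 + (q : ℝ) • nk j u) * b) x)
      (Set.Icc (0 : V m) 1) := by
    have h2 : Continuous (fun u : V m => (1 + (q : ℝ) • nk (m := m) j u) * b) := by
      have h3 := nk_cont m (j : ℕ)
      fun_prop
    refine (hE.cont x).comp h2.continuousOn ?_
    intro u _
    show ((1 + (q : ℝ) • nk (m := m) j u) * b).det ≠ 0
    rw [Matrix.det_mul, hdetu, one_mul]
    exact hb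
  have hint : IntegrableOn (fun u : V m => F ((1 + (q : ℝ) • nk j u) * b) x)
      (Set.Icc (0 : V m) 1) := hcont.integrableOn_compact isCompact_Icc
  have hFP : ‖F b x * P‖ ≤ CL * δ⁻¹ * τ * I.toReal := by
    have h2 : ∫ u in Set.Icc (0 : V m) 1,
        (F b x * P - F ((1 + (q : ℝ) • nk j u) * b) x * P) = F b x * P := by
      have i1 : Integrable (fun _ : V m => F b x * P)
          ((volume : Measure (V m)).restrict (Set.Icc (0 : V m) 1)) :=
        integrableOn_const (by rw [vol_box]; exact ENNReal.one_ne_top)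
      have i2 : Integrable (fun u : V m => F ((1 + (q : ℝ) • nk j u) * b) x * P)
          ((volume : Measure (V m)).restrict (Set.Icc (0 : V m) 1)) := hint.mul_const P
      have i3 : ∫ u in Set.Icc (0 : V m) 1, F ((1 + (q : ℝ) • nk j u) * b) x * P = 0 := by
        rw [integral_mul_const, hcusp, zero_mul]
      rw [integral_sub i1 i2, i3, sub_zero, setIntegral_const,
        Measure.real, vol_box, ENNReal.toReal_one, one_smul]
    rw [← h2]
    have h3 := norm_setIntegral_le_of_norm_le_const (μ := (volume : Measure (V m)))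
      (s := Set.Icc (0 : V m) 1) (f := fun u : V m =>
        F b x * P - F ((1 + (q : ℝ) • nk j u) * b) x * P)
      (by rw [vol_box]; exact ENNReal.one_lt_top) hdiff
    rwa [Measure.real, vol_box, ENNReal.toReal_one, mul_one] at h3
  have hIfin : I ≠ ⊤ := by
    obtain ⟨M, hM⟩ := hE.bdd
    have hfin : hm m (Zc m CL) < ⊤ := (har m h1).2.2.2 CL hCL0
    have h2 : I ≤ ENNReal.ofReal M * hm m (Zc m CL) := by
      rw [← setLIntegral_const]
      apply setLIntegral_mono' (meas_Zc m CL)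
      intro z hz
      apply ENNReal.ofReal_le_ofReal
      apply hM
      rw [Matrix.det_mul]
      exact mul_ne_zero hb (det_inv_ne _ (det_ne_of_Zc hCL0 hz))
    exact (lt_of_le_of_lt h2 (ENNReal.mul_lt_top ENNReal.ofReal_lt_top hfin)).ne
  -- division by `P`
  have hreal : ‖F b x‖ ≤ max CL (CL / c1) * δ⁻¹ ^ (m ^ 2 + 1) * τ * I.toReal := by
    have hd0 : 0 < c1 * δ ^ (m ^ 2) := by positivity
    have hI0 : 0 ≤ I.toReal := ENNReal.toReal_nonneg
    rw [norm_mul] at hFP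
    have h2 : ‖F b x‖ * (c1 * δ ^ (m ^ 2)) ≤ CL * δ⁻¹ * τ * I.toReal :=
      (mul_le_mul_of_nonneg_left hPlow (norm_nonneg _)).trans hFP
    have h3 : ‖F b x‖ ≤ CL * δ⁻¹ * τ * I.toReal / (c1 * δ ^ (m ^ 2)) := by
      rw [le_div_iff₀ hd0]
      exact h2
    have h4 : CL * δ⁻¹ * τ * I.toReal / (c1 * δ ^ (m ^ 2)) =
        CL / c1 * (δ⁻¹ ^ (m ^ 2 + 1) * τ * I.toReal) := by
      rw [pow_succ, inv_pow, div_eq_mul_inv, mul_inv, div_eq_mul_inv]
      ring
    rw [h4] at h3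
    refine h3.trans ?_
    have h5 : 0 ≤ δ⁻¹ ^ (m ^ 2 + 1) * τ * I.toReal := by positivity
    calc CL / c1 * (δ⁻¹ ^ (m ^ 2 + 1) * τ * I.toReal) ≤
          max CL (CL / c1) * (δ⁻¹ ^ (m ^ 2 + 1) * τ * I.toReal) :=
          mul_le_mul_of_nonneg_right (le_max_right _ _) h5
      _ = max CL (CL / c1) * δ⁻¹ ^ (m ^ 2 + 1) * τ * I.toReal := by ring
  have hpos : 0 ≤ max CL (CL / c1) * δ⁻¹ ^ (m ^ 2 + 1) * τ := by
    have : 0 < max CL (CL / c1) := lt_max_of_lt_left hCL0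
    positivity
  have hsub : Zc m CL ⊆ Zc m (max CL (CL / c1)) := by
    intro z hz
    refine ⟨hz.1.trans (le_max_left _ _), le_trans ?_ hz.2⟩
    exact inv_anti₀ hCL0 (le_max_left _ _)
  calc ENNReal.ofReal ‖F b x‖ ≤
        ENNReal.ofReal (max CL (CL / c1) * δ⁻¹ ^ (m ^ 2 + 1) * τ * I.toReal) :=
        ENNReal.ofReal_le_ofReal hreal
    _ = ENNReal.ofReal (max CL (CL / c1) * δ⁻¹ ^ (m ^ 2 + 1) * τ) * I := by
        rw [ENNReal.ofReal_mul hpos, ENNReal.ofReal_toReal hIfin]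
    _ ≤ ENNReal.ofReal (max CL (CL / c1) * δ⁻¹ ^ (m ^ 2 + 1) * τ) *
        ∫⁻ z in Zc m (max CL (CL / c1)), ENNReal.ofReal ‖F (b * (mt z)⁻¹) x‖ ∂(hm m) := by
        gcongr
        exact lintegral_mono_set hsub

end Pool.Agent.H47.GU
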